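import Mathlib

/-! # A banded Toeplitz-Hessenberg substochastic matrix whose fourth power has trace larger than one -/

namespace Pool.Agent.Results.MP_e73184_al.TraceCounterexample

/-- The admissible matrices (for `k`) of the problem. -/
def Admissible (n k : ℕ) (A : Matrix (Fin n) (Fin n) ℝ) : Prop :=
  (∀ i j, 0 ≤ A i j) ∧
  (∀ j, ∑ i, A i j ≤ 1) ∧ (∀ i, ∑ j, A i j ≤ 1) ∧
  (∀ i j : Fin n, (i : ℕ) + 2 ≤ j → A i j = 0) ∧
  (∀ i j : Fin n, (j : ℕ) + k < i → A i j = 0) ∧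
  ∃ c : ℕ → ℝ, (∀ l, 0 ≤ c l) ∧ ∀ (l : ℕ) (i j : Fin n), l ≤ k → (j : ℕ) + l = i → A i j = c l

/-- the matrix with rows `(1/3, 2/3, 0)`, `(0, 1/3, 2/3)`, `(2/3, 0, 1/3)` -/
noncomputable def A₀ : Matrix (Fin 3) (Fin 3) ℝ :=
  fun i j => if i = j then 1/3 else if (i : ℕ) + 1 = j ∨ (i : ℕ) = j + 2 then 2/3 else 0

theorem adm : Admissible 3 2 A₀ := by
  refine ⟨?_, ?_, ?_, ?_, ?_, ?_⟩
  · intro i j; unfold A₀; split_ifs <;> norm_num
  · intro j; fin_cases j <;> simp [A₀, Fin.sum_univ_three] <;> norm_num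
  · intro j; fin_cases j <;> simp [A₀, Fin.sum_univ_three] <;> norm_num
  · intro i j h
    unfold A₀
    rw [if_neg, if_neg]
    · omega
    · rintro rfl; omega
  · intro i j h
    have := i.2
    omega
  · refine ⟨fun l => if l = 0 then 1/3 else if l = 2 then 2/3 else 0, ?_, ?_⟩
    · intro l
      dsimp only
      split_ifs <;> norm_num
    · intro l i j hl h
      unfold A₀
      dsimp only
      by_cases h0 : l = 0
      · rw [if_pos h0, if_pos]
        exact Fin.ext (by omega)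
      · rw [if_neg h0, if_neg (by rintro rfl; omega)]
        by_cases h2 : l = 2
        · rw [if_pos h2, if_pos (by omega)]
        · rw [if_neg h2, if_neg (by omega)]

/-- `A₀ ^ 2` -/
noncomputable def B₀ : Matrix (Fin 3) (Fin 3) ℝ := fun i j => if i = j then 1/9 else 4/9

theorem sq : A₀ ^ 2 = B₀ := by
  rw [pow_two]
  ext i j
  rw [Matrix.mul_apply, Fin.sum_univ_three]
  fin_cases i <;> fin_cases j <;> simp [A₀, B₀] <;> norm_num

theorem tr1 : Matrix.trace A₀ = 1 := by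
  simp [A₀, Matrix.trace]

theorem tr2 : Matrix.trace (A₀ ^ 2) = 1 / 3 := by
  rw [sq]; simp [B₀, Matrix.trace]; norm_num

theorem tr3 : Matrix.trace (A₀ ^ 3) = 1 := by
  rw [pow_succ, sq]
  simp [A₀, B₀, Matrix.trace, Fin.sum_univ_three, Matrix.mul_apply]; norm_num

theorem tr4 : Matrix.trace (A₀ ^ 4) = 11 / 9 := by
  have : A₀ ^ 4 = A₀ ^ 2 * A₀ ^ 2 := by rw [← pow_add]
  rw [this, sq]
  simp [B₀, Matrix.trace, Fin.sum_univ_three, Matrix.mul_apply]; norm_num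

/-- The trace bound fails, for `n = 3` and `k = 2`. -/
theorem result :
    (∃ A : Matrix (Fin 3) (Fin 3) ℝ, Admissible 3 2 A ∧
      (∀ l, 1 ≤ l → l ≤ 2 + 1 → (A ^ l).trace ≤ 1) ∧ (A ^ 4).trace = 11 / 9) ∧
    ¬ ∀ (n k : ℕ) (A : Matrix (Fin n) (Fin n) ℝ), 1 ≤ n → Admissible n k A →
      (∀ l, 1 ≤ l → l ≤ k + 1 → (A ^ l).trace ≤ 1) → ∀ l, 1 ≤ l → (A ^ l).trace ≤ 1 := by
  have key : ∀ l, 1 ≤ l → l ≤ 2 + 1 → (A₀ ^ l).trace ≤ 1 := by
    intro l h1 h2
    interval_cases l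
    · rw [pow_one, tr1]
    · rw [tr2]; norm_num
    · rw [tr3]
  refine ⟨⟨A₀, adm, key, tr4⟩, fun h => ?_⟩
  have := h 3 2 A₀ (by norm_num) adm key 4 (by norm_num)
  rw [tr4] at this
  norm_num at this

end Pool.Agent.Results.MP_e73184_al.TraceCounterexample
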